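import Mathlib

namespace Pool.Agent.Results.MP_4b02fd_al.PuncturedTorus

open FreeGroup

/-- The free group of rank two, the fundamental group of the once-punctured torus. -/
abbrev F : Type := FreeGroup (Fin 2)

/-! ### Common prefixes and the length function -/

section Lcp

variable {A : Type} [DecidableEq A]

/-- Length of the longest common prefix. -/
def lcp : List A → List A → ℕ
  | a :: l, b :: m => if a = b then lcp l m + 1 else 0
  | _, _ => 0

theorem lcp_nil_left (m : List A) : lcp ([] : List A) m = 0 := by simp [lcp]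
theorem lcp_nil_right (l : List A) : lcp l ([] : List A) = 0 := by cases l <;> simp [lcp]

theorem lcp_comm (l m : List A) : lcp l m = lcp m l := by
  induction l generalizing m with
  | nil => rw [lcp_nil_left, lcp_nil_right]
  | cons a l ih =>
    cases m with
    | nil => rw [lcp_nil_left, lcp_nil_right]
    | cons b m =>
      simp only [lcp]
      by_cases h : a = b
      · rw [if_pos h, if_pos h.symm, ih]
      · rw [if_neg h, if_neg fun h' => h h'.symm]

theorem lcp_trans (l m n : List A) : min (lcp l m) (lcp m n) ≤ lcp l n := by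
  induction l generalizing m n with
  | nil => simp [lcp_nil_left]
  | cons a l ih =>
    cases m with
    | nil => simp [lcp_nil_right]
    | cons b m =>
      cases n with
      | nil => simp [lcp_nil_right]
      | cons c n =>
        simp only [lcp]
        by_cases h1 : a = b
        · by_cases h2 : b = c
          · rw [if_pos h1, if_pos h2, if_pos (h1.trans h2)]
            have := ih m n
            omega
          · rw [if_neg h2]; simp
        · rw [if_neg h1]; simp

theorem lcp_split (l m : List A) : ∃ p l' m', l = p ++ l' ∧ m = p ++ m' ∧ p.length = lcp l m ∧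
    ∀ a ∈ l'.head?, ∀ b ∈ m'.head?, a ≠ b := by
  induction l generalizing m with
  | nil => exact ⟨[], [], m, rfl, rfl, by simp [lcp_nil_left], by simp⟩
  | cons a l ih =>
    cases m with
    | nil => exact ⟨[], a :: l, [], rfl, rfl, by simp [lcp_nil_right], by simp⟩
    | cons b m =>
      by_cases h : a = b
      · subst h
        obtain ⟨p, l', m', rfl, rfl, h1, h2⟩ := ih m
        exact ⟨a :: p, l', m', rfl, rfl, by simp [lcp, h1], h2⟩
      · exact ⟨[], a :: l, b :: m, rfl, rfl, by simp [lcp, h], by simpa using h⟩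

theorem lcp_le_left (l m : List A) : lcp l m ≤ l.length := by
  obtain ⟨p, l', m', h1, -, h3, -⟩ := lcp_split l m
  rw [← h3, h1, List.length_append]
  omega

theorem lcp_take (l : List A) (k : ℕ) (hk : k ≤ l.length) : lcp (l.take k) l = k := by
  induction l generalizing k with
  | nil =>
    have : k = 0 := by simpa using hk
    subst this
    simp [lcp]
  | cons a l ih =>
    cases k with
    | zero => simp [lcp_nil_left]
    | succ k =>
      rw [List.take_succ_cons]
      simp only [lcp, if_true]
      rw [ih k (by simpa using hk)]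

end Lcp

/-- The Gromov product. -/
def gp (g h : F) : ℕ := lcp g.toWord h.toWord

theorem gp_comm (g h : F) : gp g h = gp h g := lcp_comm _ _
theorem gp_trans (g h k : F) : min (gp g h) (gp h k) ≤ gp g k := lcp_trans _ _ _
theorem gp_le_left (g h : F) : gp g h ≤ g.norm := lcp_le_left _ _
theorem gp_le_right (g h : F) : gp g h ≤ h.norm := by rw [gp_comm]; exact gp_le_left _ _

theorem isReduced_invRev {L : List (Fin 2 × Bool)} (h : FreeGroup.IsReduced L) :
    FreeGroup.IsReduced (invRev L) := by
  rw [isReduced_iff_reduce_eq] at h ⊢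
  rw [reduce_invRev, h]

theorem norm_gp (g h : F) : (g⁻¹ * h).norm + 2 * gp g h = g.norm + h.norm := by
  obtain ⟨p, l', m', h1, h2, h3, h4⟩ := lcp_split g.toWord h.toWord
  have e1 : g = mk p * mk l' := by rw [mul_mk, ← h1, mk_toWord]
  have e2 : h = mk p * mk m' := by rw [mul_mk, ← h2, mk_toWord]
  have e3 : g⁻¹ * h = mk (invRev l' ++ m') := by
    rw [e1, e2, ← mul_mk, ← inv_mk]; group
  have hl : FreeGroup.IsReduced l' := by
    have := isReduced_toWord (x := g)
    rw [h1] at this
    exact List.IsChain.right_of_append this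
  have hm : FreeGroup.IsReduced m' := by
    have := isReduced_toWord (x := h)
    rw [h2] at this
    exact List.IsChain.right_of_append this
  have hred : FreeGroup.IsReduced (invRev l' ++ m') := by
    unfold FreeGroup.IsReduced
    rw [List.isChain_append]
    refine ⟨isReduced_invRev hl, hm, ?_⟩
    intro x hx y hy hxy
    have h5 : (invRev l').getLast? = l'.head?.map fun g => (g.1, !g.2) := by
      rw [invRev, List.getLast?_reverse, List.head?_map]
    rw [h5] at hx
    obtain ⟨a, ha, rfl⟩ := Option.map_eq_some_iff.1 hx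
    have h6 := h4 a ha y hy
    by_contra h7
    apply h6
    rcases a with ⟨a1, a2⟩
    rcases y with ⟨y1, y2⟩
    simp only at hxy h7
    subst hxy
    cases a2 <;> cases y2 <;> simp_all
  have h6 : (g⁻¹ * h).norm = l'.length + m'.length := by
    rw [e3, FreeGroup.norm, toWord_mk, (isReduced_iff_reduce_eq.1 hred), List.length_append,
      invRev_length]
  have h7 : g.norm = p.length + l'.length := by rw [FreeGroup.norm, h1, List.length_append]
  have h8 : h.norm = p.length + m'.length := by rw [FreeGroup.norm, h2, List.length_append]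
  have h9 : gp g h = p.length := h3.symm
  omega

theorem norm_mul_gp (g h : F) : (g * h).norm + 2 * gp g⁻¹ h = g.norm + h.norm := by
  have := norm_gp g⁻¹ h
  rw [inv_inv, norm_inv_eq] at this
  exact this

theorem exists_prefix (g : F) (k : ℕ) (hk : k ≤ g.norm) :
    ∃ q : F, q.norm = k ∧ gp q g = k := by
  have hred : FreeGroup.IsReduced (g.toWord.take k) :=
    List.IsChain.take (isReduced_toWord (x := g)) k
  have h1 : (mk (g.toWord.take k) : F).toWord = g.toWord.take k := by
    rw [toWord_mk, isReduced_iff_reduce_eq.1 hred]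
  refine ⟨mk (g.toWord.take k), ?_, ?_⟩
  · rw [FreeGroup.norm, h1, List.length_take]
    exact min_eq_left hk
  · rw [gp, h1]
    exact lcp_take _ _ hk

/-- Squares of nontrivial elements are longer. -/
theorem norm_sq (g : F) (hg : g ≠ 1) : g.norm < (g * g).norm := by
  have h1 := reduceCyclically.reduce_flatten_replicate_succ (isReduced_toWord (x := g)) 1
  have h2 := reduceCyclically.conj_conjugator_reduceCyclically g.toWord
  have h3 : (g * g).toWord = reduce (List.replicate (1 + 1) g.toWord).flatten := by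
    rw [toWord_mul]
    simp [List.replicate_succ]
  have h4 : (g * g).norm = (reduceCyclically.conjugator g.toWord).length +
      (2 * (reduceCyclically g.toWord).length) +
      (reduceCyclically.conjugator g.toWord).length := by
    rw [FreeGroup.norm, h3, h1]
    simp [List.replicate_succ]
    ring
  have h5 : g.norm = (reduceCyclically.conjugator g.toWord).length +
      ((reduceCyclically g.toWord).length) +
      (reduceCyclically.conjugator g.toWord).length := by
    conv_lhs => rw [FreeGroup.norm, ← h2]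
    simp
    ring
  have h6 : (reduceCyclically g.toWord).length ≠ 0 := by
    intro h0
    rw [List.length_eq_zero_iff] at h0
    rw [h0] at h2
    apply hg
    rw [← mk_toWord (x := g), ← h2, List.append_nil, ← mul_mk, ← inv_mk, mul_inv_cancel]
  omega



/-! ### Pairs obtained from the standard basis by elementary moves -/

/-- The first free generator. -/
def x : F := FreeGroup.of 0
/-- The second free generator. -/
def y : F := FreeGroup.of 1

/-- Pairs of positive words obtained from `(X, Y)` by elementary transformations. -/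
inductive Desc (X Y : F) : F → F → Prop
  | root : Desc X Y X Y
  | right {U V : F} : Desc X Y U V → Desc X Y U (U * V)
  | left {U V : F} : Desc X Y U V → Desc X Y (U * V) V

/-- `s` is one of the two signs of the generator `t`. -/
def Sgn (t s : F) : Prop := s = t ∨ s = t⁻¹

theorem Sgn.inv {t s : F} (h : Sgn t s) : Sgn t s⁻¹ := by
  rcases h with rfl | rfl
  · exact Or.inr rfl
  · exact Or.inl (inv_inv _)

/-- Pairs conjugate, up to inversion and swapping, to a descendant of `(x^{±1}, y^{±1})`. -/
inductive QP : F → F → Prop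
  | base {X Y U V : F} : Sgn x X → Sgn y Y → Desc X Y U V → QP U V
  | inv {u v : F} : QP u v → QP u⁻¹ v
  | swap {u v : F} : QP u v → QP v u
  | conj {u v : F} (g : F) : QP u v → QP (g * u * g⁻¹) (g * v * g⁻¹)

theorem QP.inv' {u v : F} (h : QP u v) : QP u v⁻¹ := h.swap.inv.swap

theorem QP.conj_eq {u v : F} (h : QP u v) (g : F) {u' v' : F} (h1 : g * u * g⁻¹ = u')
    (h2 : g * v * g⁻¹ = v') : QP u' v' := by
  subst h1; subst h2; exact h.conj g

/-- All neighbours of a pair are again in the family. -/
structure Nb (u v : F) : Prop where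
  n1 : QP (u * v) v
  n2 : QP (u * v⁻¹) v
  n3 : QP (v * u) u
  n4 : QP (v * u⁻¹) u

theorem QP.nb {u v : F} (h : QP u v) : Nb u v := by
  induction h with
  | @base X Y U V hX hY h =>
    have hR : QP U (U * V) := .base hX hY h.right
    have hL : QP (U * V) V := .base hX hY h.left
    refine ⟨hL, ?_, hR.swap.conj_eq U⁻¹ (by group) (by group), ?_⟩
    · -- `(U V⁻¹, V)`
      cases h with
      | root =>
        have h1 : QP (X * Y⁻¹) Y⁻¹ := .base hX hY.inv Desc.root.left
        simpa using h1.inv'
      | @right U V h =>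
        have h1 : QP (U * V) V := .base hX hY h.left
        refine h1.inv'.swap.conj_eq (U * V) (by group) (by group)
      | @left U V h =>
        have h1 : QP U V := .base hX hY h
        simpa using h1
    · have key : QP (U * V⁻¹) U := by
        cases h with
        | root =>
          have h1 : QP X (X * Y⁻¹) := .base hX hY.inv Desc.root.right
          exact h1.swap
        | @right U V h =>
          have h1 : QP U V := .base hX hY h
          exact h1.inv'.swap.conj_eq U (by group) (by group)
        | @left U V h =>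
          have h1 : QP U (U * V) := .base hX hY h.right
          simpa using h1
      simpa using key.inv
  | @inv u v h ih =>
    refine ⟨?_, ?_, ?_, ?_⟩
    · exact ih.n2.inv.conj_eq v⁻¹ (by group) (by group)
    · exact ih.n1.inv.conj_eq v (by group) (by group)
    · simpa using ih.n4.inv'
    · simpa using ih.n3.inv'
  | swap h ih => exact ⟨ih.n3, ih.n4, ih.n1, ih.n2⟩
  | @conj u v g h ih =>
    exact ⟨ih.n1.conj_eq g (by group) (by group), ih.n2.conj_eq g (by group) (by group),
      ih.n3.conj_eq g (by group) (by group), ih.n4.conj_eq g (by group) (by group)⟩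



/-! ### Nielsen's theorem in rank two -/

/-- `u` and `v` generate the free group. -/
def Gen (u v : F) : Prop := ∀ H : Subgroup F, u ∈ H → v ∈ H → H = ⊤

theorem Gen.swap {u v : F} (h : Gen u v) : Gen v u := fun H h1 h2 => h H h2 h1

theorem Gen.sgn {u v a b : F} (h : Gen u v) (ha : Sgn u a) (hb : Sgn v b) : Gen a b := by
  intro H h1 h2
  apply h H
  · rcases ha with rfl | rfl
    · exact h1
    · exact (Subgroup.inv_mem_iff H).1 h1
  · rcases hb with rfl | rfl
    · exact h2
    · exact (Subgroup.inv_mem_iff H).1 h2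

theorem Gen.mul {u v : F} (h : Gen u v) : Gen (u * v) v := by
  intro H h1 h2
  refine h H ?_ h2
  have := H.mul_mem h1 (H.inv_mem h2)
  simpa using this

theorem Gen.conj {u v : F} (h : Gen u v) (g : F) : Gen (g * u * g⁻¹) (g * v * g⁻¹) := by
  intro H h1 h2
  have h3 := h (H.comap (MulAut.conj g).toMonoidHom) (by simpa using h1) (by simpa using h2)
  rw [eq_top_iff]
  intro z _
  have h4 : (MulAut.conj g).symm z ∈ H.comap (MulAut.conj g).toMonoidHom := by
    rw [h3]; trivial
  have h5 : g * (g⁻¹ * z * g) * g⁻¹ ∈ H := by simpa using h4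
  have h6 : g * (g⁻¹ * z * g) * g⁻¹ = z := by group
  rwa [h6] at h5

theorem Sgn.qp {u v a b : F} (ha : Sgn u a) (hb : Sgn v b) (h : QP a b) : QP u v := by
  rcases ha with rfl | rfl <;> rcases hb with rfl | rfl
  · exact h
  · simpa using h.inv'
  · simpa using h.inv
  · simpa using h.inv.inv'

theorem Gen.ne_one {u v : F} (h : Gen u v) : v ≠ 1 := by
  rintro rfl
  have h1 := h (Subgroup.zpowers u) (Subgroup.mem_zpowers u) (Subgroup.one_mem _)
  have hx : x ∈ Subgroup.zpowers u := by rw [h1]; trivial
  have hy : y ∈ Subgroup.zpowers u := by rw [h1]; trivial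
  obtain ⟨m, hm⟩ := hx
  obtain ⟨n, hn⟩ := hy
  have h2 : x * y = y * x := by
    rw [← hm, ← hn]
    exact ((Commute.refl u).zpow_zpow m n).eq
  revert h2
  unfold x y
  decide

theorem Sgn.ne_one {t s : F} (h : Sgn t s) (ht : t ≠ 1) : s ≠ 1 := by
  rcases h with rfl | rfl
  · exact ht
  · simpa using ht

theorem Sgn.norm_eq {t s : F} (h : Sgn t s) : s.norm = t.norm := by
  rcases h with rfl | rfl
  · rfl
  · exact norm_inv_eq

theorem step_A {p r : F} (hg : Gen p r)
    (IH : ∀ u v : F, u.norm + v.norm < p.norm + r.norm → Gen u v → QP u v)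
    (hn : ¬ QP p r) {a b : F} (ha : Sgn p a) (hb : Sgn r b) : a.norm ≤ (a * b).norm := by
  by_contra hlt
  apply hn
  have h1 : Gen (a * b) b := (hg.sgn ha hb).mul
  have h2 : QP (a * b) b := by
    apply IH _ _ _ h1
    rw [hb.norm_eq, ← ha.norm_eq]
    omega
  refine ha.qp hb ?_
  simpa using h2.nb.n2

theorem step_A' {p r : F} (hg : Gen p r)
    (IH : ∀ u v : F, u.norm + v.norm < p.norm + r.norm → Gen u v → QP u v)
    (hn : ¬ QP p r) {a b : F} (ha : Sgn p a) (hb : Sgn r b) : b.norm ≤ (a * b).norm := by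
  have h := step_A (p := r) (r := p) hg.swap (fun u v h1 h2 => IH u v (by omega) h2)
    (fun h => hn h.swap) (a := b⁻¹) (b := a⁻¹) hb.inv ha.inv
  rwa [← mul_inv_rev, norm_inv_eq, norm_inv_eq] at h

theorem step_B {p r : F} (hg : Gen p r)
    (IH : ∀ u v : F, u.norm + v.norm < p.norm + r.norm → Gen u v → QP u v)
    (hn : ¬ QP p r) {a b : F} (ha : Sgn p a) (hb : Sgn r b)
    (h1 : 2 * gp a⁻¹ b = b.norm) (h2 : 2 * gp b⁻¹ a = b.norm) : False := by
  have hA := step_A hg IH hn ha hb
  have hA' := step_A' hg IH hn ha hb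
  have hab := norm_mul_gp a b
  obtain ⟨q, hq1, hq2⟩ := exists_prefix b⁻¹ (gp a⁻¹ b) (by rw [norm_inv_eq]; omega)
  have e1 : (b * q).norm = gp a⁻¹ b := by
    have := norm_mul_gp b q
    rw [gp_comm, hq2, hq1] at this
    omega
  have e2 : gp b (b * q) = gp a⁻¹ b := by
    have := norm_gp b (b * q)
    rw [inv_mul_cancel_left, hq1, e1] at this
    omega
  have e3 : gp a⁻¹ (b * q) = gp a⁻¹ b := by
    have h3 := gp_trans a⁻¹ b (b * q)
    have h4 := gp_le_right a⁻¹ (b * q)
    rw [e2] at h3
    rw [e1] at h4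
    omega
  have e4 : (a * (b * q)).norm + gp a⁻¹ b = a.norm := by
    have := norm_mul_gp a (b * q)
    rw [e3, e1] at this
    omega
  have e5 : gp a (a * (b * q)) + gp a⁻¹ b = a.norm := by
    have := norm_gp a (a * (b * q))
    rw [inv_mul_cancel_left, e1] at this
    omega
  have e6 : gp q (a * (b * q)) = gp a⁻¹ b := by
    have h3 := gp_trans q b⁻¹ a
    have h4 := gp_trans q a (a * (b * q))
    have h5 := gp_le_left q (a * (b * q))
    rw [hq2] at h3
    rw [hq1] at h5
    omega
  have e7 : (q⁻¹ * (a * (b * q))).norm + b.norm ≤ a.norm := by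
    have := norm_gp q (a * (b * q))
    rw [e6, hq1] at this
    omega
  have e8 : (q⁻¹ * (b * q)).norm ≤ b.norm := by
    have := norm_gp q (b * q)
    rw [e1, hq1] at this
    omega
  have hb1 : b.norm ≠ 0 := by
    rw [Ne, FreeGroup.norm_eq_zero]
    exact hb.ne_one hg.ne_one
  have h3 : QP (q⁻¹ * (a * b) * q⁻¹⁻¹) (q⁻¹ * b * q⁻¹⁻¹) := by
    apply IH
    · rw [inv_inv, mul_assoc q⁻¹, mul_assoc a, mul_assoc q⁻¹, ← ha.norm_eq, ← hb.norm_eq]
      omega
    · exact (hg.sgn ha hb).mul.conj _
  have h4 : QP (a * b) b := h3.conj_eq q (by group) (by group)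
  apply hn
  refine ha.qp hb ?_
  simpa using h4.nb.n2

theorem step_C {p r : F} (hg : Gen p r)
    (IH : ∀ u v : F, u.norm + v.norm < p.norm + r.norm → Gen u v → QP u v)
    (hn : ¬ QP p r) {a b d : F} (hb : Sgn r b) (ha : Sgn p a ∨ a = b)
    (hd : Sgn p d ∨ d = b) : gp a⁻¹ b + gp b⁻¹ d < b.norm := by
  have hb1 : b ≠ 1 := hb.ne_one hg.ne_one
  have hbb : 2 * gp b⁻¹ b < b.norm := by
    have h1 := norm_mul_gp b b
    have h2 := norm_sq b hb1
    omega
  have ha' : Sgn p a → 2 * gp a⁻¹ b ≤ b.norm := by
    intro ha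
    have h1 := step_A hg IH hn ha hb
    have h2 := norm_mul_gp a b
    omega
  have hd' : Sgn p d → 2 * gp b⁻¹ d ≤ b.norm := by
    intro hd
    have h1 := step_A hg IH hn hd.inv hb.inv
    rw [← mul_inv_rev, norm_inv_eq, norm_inv_eq] at h1
    have h2 := norm_mul_gp b d
    omega
  rcases ha with ha | rfl
  · rcases hd with hd | rfl
    · by_contra hcon
      have h1 := ha' ha
      have h2 := hd' hd
      have h3 : 2 * gp a⁻¹ b = b.norm := by omega
      have h4 : 2 * gp b⁻¹ d = b.norm := by omega
      have h5 : d = a ∨ d = a⁻¹ := by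
        rcases ha with rfl | rfl <;> rcases hd with rfl | rfl <;> simp
      rcases h5 with rfl | rfl
      · exact step_B hg IH hn ha hb h3 h4
      · have h6 := gp_trans b⁻¹ a⁻¹ b
        omega
    · have h1 := ha' ha
      omega
  · rcases hd with hd | rfl
    · have h1 := hd' hd
      omega
    · omega

/-- The letter `i` evaluated in `f`. -/
def lt (f : Fin 2 → F) (i : Fin 2 × Bool) : F := cond i.2 (f i.1) (f i.1)⁻¹

theorem prod_lemma (f : Fin 2 → F)
    (H : ∀ i j k : Fin 2 × Bool, (i.1 = j.1 → i.2 = j.2) → (j.1 = k.1 → j.2 = k.2) →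
      gp (lt f i)⁻¹ (lt f j) + gp (lt f j)⁻¹ (lt f k) < (lt f j).norm)
    (l : List (Fin 2 × Bool)) : ∀ i j : Fin 2 × Bool, FreeGroup.IsReduced (i :: j :: l) →
      gp (lt f i)⁻¹ ((j :: l).map (lt f)).prod = gp (lt f i)⁻¹ (lt f j) ∧
      l.length + 1 + gp (lt f i)⁻¹ (lt f j) ≤ ((j :: l).map (lt f)).prod.norm := by
  induction l with
  | nil =>
    intro i j hr
    have hij : i.1 = j.1 → i.2 = j.2 := by
      unfold FreeGroup.IsReduced at hr
      rw [List.isChain_cons_cons] at hr
      exact hr.1
    have := H i j j hij (fun _ => rfl)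
    simp only [List.map_cons, List.map_nil, List.prod_cons, List.prod_nil, mul_one,
      List.length_nil, true_and]
    omega
  | cons k l ih =>
    intro i j hr
    have hr' := hr
    unfold FreeGroup.IsReduced at hr'
    rw [List.isChain_cons_cons] at hr'
    have hij := hr'.1
    have hr2 : FreeGroup.IsReduced (j :: k :: l) := hr'.2
    have hjk := (List.isChain_cons_cons.1 hr'.2).1
    obtain ⟨ih1, ih2⟩ := ih j k hr2
    have hH := H i j k hij hjk
    rw [List.map_cons, List.prod_cons]
    generalize hP : ((k :: l).map (lt f)).prod = P at ih1 ih2 ⊢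
    have e1 := norm_mul_gp (lt f j) P
    have e2 := norm_gp (lt f j) (lt f j * P)
    rw [inv_mul_cancel_left] at e2
    have e3 := gp_trans (lt f i)⁻¹ (lt f j) (lt f j * P)
    have e4 := gp_trans (lt f i)⁻¹ (lt f j * P) (lt f j)
    rw [gp_comm (lt f j * P) (lt f j)] at e4
    rw [List.length_cons]
    constructor <;> omega

theorem letter_of_norm_one (f : Fin 2 → F) (hg : Gen (f 0) (f 1))
    (H : ∀ i j k : Fin 2 × Bool, (i.1 = j.1 → i.2 = j.2) → (j.1 = k.1 → j.2 = k.2) →
      gp (lt f i)⁻¹ (lt f j) + gp (lt f j)⁻¹ (lt f k) < (lt f j).norm)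
    (w : F) (hw : w.norm = 1) : ∃ i, w = lt f i := by
  have h1 : (FreeGroup.lift f).range = ⊤ := by
    apply hg
    · exact ⟨FreeGroup.of 0, by simp⟩
    · exact ⟨FreeGroup.of 1, by simp⟩
  have h2 : w ∈ (FreeGroup.lift f).range := by rw [h1]; trivial
  obtain ⟨g, hgw⟩ := h2
  have h3 : w = (g.toWord.map (lt f)).prod := by
    rw [← hgw]
    conv_lhs => rw [← mk_toWord (x := g)]
    rw [FreeGroup.lift_mk]
    rfl
  have h4 : FreeGroup.IsReduced g.toWord := isReduced_toWord
  revert h3 h4
  generalize g.toWord = l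
  intro h3 h4
  cases l with
  | nil =>
    rw [List.map_nil, List.prod_nil] at h3
    subst h3
    simp at hw
  | cons j l =>
    have h5 : FreeGroup.IsReduced (j :: j :: l) := by
      unfold FreeGroup.IsReduced at h4 ⊢
      rw [List.isChain_cons_cons]
      exact ⟨fun _ => rfl, h4⟩
    have h6 := (prod_lemma f H l j j h5).2
    rw [← h3, hw] at h6
    have h7 : l = [] := List.length_eq_zero_iff.1 (by omega)
    subst h7
    exact ⟨j, by simpa using h3⟩

theorem Sgn.symm' {t s : F} (h : Sgn t s) : Sgn s t := by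
  rcases h with rfl | rfl
  · exact Or.inl rfl
  · exact Or.inr (inv_inv _).symm

theorem sgn_lt (f : Fin 2 → F) (i : Fin 2 × Bool) : Sgn (f i.1) (lt f i) := by
  rcases i with ⟨i, b⟩
  cases b
  · exact Or.inr rfl
  · exact Or.inl rfl

theorem nielsen (n : ℕ) : ∀ u v : F, u.norm + v.norm = n → Gen u v → QP u v := by
  induction n using Nat.strong_induction_on with
  | _ n IH =>
    intro u v hn hg
    by_contra hQ
    have IH' : ∀ u' v' : F, u'.norm + v'.norm < u.norm + v.norm → Gen u' v' → QP u' v' :=
      fun u' v' h1 h2 => IH _ (by omega) u' v' rfl h2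
    have IH2 : ∀ u' v' : F, u'.norm + v'.norm < v.norm + u.norm → Gen u' v' → QP u' v' :=
      fun u' v' h1 h2 => IH _ (by omega) u' v' rfl h2
    have hQ2 : ¬ QP v u := fun h => hQ h.swap
    have H : ∀ i j k : Fin 2 × Bool, (i.1 = j.1 → i.2 = j.2) → (j.1 = k.1 → j.2 = k.2) →
      gp (lt ![u, v] i)⁻¹ (lt ![u, v] j) + gp (lt ![u, v] j)⁻¹ (lt ![u, v] k) <
        (lt ![u, v] j).norm := by
      intro i j k hij hjk
      have hj := sgn_lt ![u, v] j
      have key : ∀ i : Fin 2 × Bool, (i.1 = j.1 → i.2 = j.2) →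
          Sgn (![u, v] (1 - j.1)) (lt ![u, v] i) ∨ lt ![u, v] i = lt ![u, v] j := by
        intro i hij
        by_cases h : i.1 = j.1
        · right
          have : i = j := Prod.ext h (hij h)
          rw [this]
        · left
          have h2 : i.1 = 1 - j.1 := by
            revert h
            generalize i.1 = a
            generalize j.1 = b
            revert a b
            decide
          rw [← h2]
          exact sgn_lt _ _
      have hi := key i hij
      have hk := key k fun h => (hjk h.symm).symm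
      rcases j with ⟨j, b⟩
      fin_cases j
      · exact step_C hg.swap IH2 hQ2 hj hi hk
      · exact step_C hg IH' hQ hj hi hk
    obtain ⟨i, hi⟩ := letter_of_norm_one ![u, v] hg H x (by simp [x])
    obtain ⟨j, hj⟩ := letter_of_norm_one ![u, v] hg H y (by simp [y])
    have hi' := sgn_lt ![u, v] i
    have hj' := sgn_lt ![u, v] j
    rw [← hi] at hi'
    rw [← hj] at hj'
    have hxy : ¬ Sgn x y := by
      unfold Sgn x y
      decide
    rcases i with ⟨i, b⟩
    rcases j with ⟨j, b'⟩
    have hroot : QP x y := .base (Or.inl rfl) (Or.inl rfl) Desc.root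
    fin_cases i <;> fin_cases j <;> simp at hi' hj'
    · -- both are `u`
      apply hxy
      rcases hi' with h | h <;> rcases hj' with h' | h' <;> rw [h, h'] <;>
        first | exact Or.inl rfl | exact Or.inr rfl | exact Or.inr (inv_inv _).symm
    · exact hQ (hi'.qp hj' hroot)
    · exact hQ2 (hi'.qp hj' hroot)
    · apply hxy
      rcases hi' with h | h <;> rcases hj' with h' | h' <;> rw [h, h'] <;>
        first | exact Or.inl rfl | exact Or.inr rfl | exact Or.inr (inv_inv _).symm



/-! ### Monotone words -/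

/-- Monotone words: positive words in `x^{±1}, y^{±1}` for one fixed choice of signs. -/
def Mon (w : F) : Prop := ∃ X Y : F, Sgn x X ∧ Sgn y Y ∧ w ∈ Submonoid.closure {X, Y}

theorem Mon.inv {w : F} (h : Mon w) : Mon w⁻¹ := by
  obtain ⟨X, Y, hX, hY, hw⟩ := h
  refine ⟨X⁻¹, Y⁻¹, hX.inv, hY.inv, ?_⟩
  induction hw using Submonoid.closure_induction with
  | mem z hz =>
    rcases hz with rfl | rfl
    · exact Submonoid.subset_closure (Or.inl rfl)
    · exact Submonoid.subset_closure (Or.inr rfl)
  | one => simp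
  | mul a b _ _ ha hb => rw [mul_inv_rev]; exact Submonoid.mul_mem _ hb ha

theorem Desc.mem {X Y U V : F} (h : Desc X Y U V) :
    U ∈ Submonoid.closure {X, Y} ∧ V ∈ Submonoid.closure {X, Y} := by
  induction h with
  | root => exact ⟨Submonoid.subset_closure (Or.inl rfl), Submonoid.subset_closure (Or.inr rfl)⟩
  | right _ ih => exact ⟨ih.1, Submonoid.mul_mem _ ih.1 ih.2⟩
  | left _ ih => exact ⟨Submonoid.mul_mem _ ih.1 ih.2, ih.2⟩

theorem QP.mon {u v : F} (h : QP u v) : (∃ g, Mon (g * u * g⁻¹)) ∧ (∃ g, Mon (g * v * g⁻¹)) := by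
  induction h with
  | base hX hY h =>
    refine ⟨⟨1, ?_⟩, ⟨1, ?_⟩⟩
    · simpa using ⟨_, _, hX, hY, h.mem.1⟩
    · simpa using ⟨_, _, hX, hY, h.mem.2⟩
  | @inv u v h ih =>
    refine ⟨?_, ih.2⟩
    obtain ⟨g, hg⟩ := ih.1
    refine ⟨g, ?_⟩
    have : g * u⁻¹ * g⁻¹ = (g * u * g⁻¹)⁻¹ := by group
    rw [this]
    exact hg.inv
  | swap h ih => exact ⟨ih.2, ih.1⟩
  | @conj u v k h ih =>
    obtain ⟨⟨g, hg⟩, ⟨g', hg'⟩⟩ := ih
    refine ⟨⟨g * k⁻¹, ?_⟩, ⟨g' * k⁻¹, ?_⟩⟩
    · have : g * k⁻¹ * (k * u * k⁻¹) * (g * k⁻¹)⁻¹ = g * u * g⁻¹ := by group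
      rwa [this]
    · have : g' * k⁻¹ * (k * v * k⁻¹) * (g' * k⁻¹)⁻¹ = g' * v * g'⁻¹ := by group
      rwa [this]

/-- Every primitive element of the free group of rank two is conjugate to a monotone word. -/
theorem primitive_conj_mon (φ : F ≃* F) : ∃ s, Mon s ∧ IsConj s (φ x) := by
  have hg : Gen (φ x) (φ y) := by
    intro H h1 h2
    have h3 : H.comap φ.toMonoidHom = ⊤ := by
      rw [eq_top_iff, ← FreeGroup.closure_range_of (Fin 2), Subgroup.closure_le]
      rintro _ ⟨i, rfl⟩
      fin_cases i
      · exact h1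
      · exact h2
    rw [eq_top_iff]
    intro z _
    have h4 : φ.symm z ∈ H.comap φ.toMonoidHom := by rw [h3]; trivial
    simpa using h4
  obtain ⟨⟨g, hg⟩, -⟩ := (nielsen _ _ _ rfl hg).mon
  exact ⟨_, hg, (isConj_iff.2 ⟨g, rfl⟩).symm⟩

/-! ### Flows on the edges of the square grid -/

/-- A finitely supported or arbitrary flow on the oriented edges of the grid `ℤ²` (`false` marks
the horizontal and `true` the vertical edge starting at a vertex), together with an endpoint. -/
@[ext] structure Fl where
  fl : ℤ × ℤ → Bool → ℤ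
  pos : ℤ × ℤ

instance : Mul Fl := ⟨fun a b => ⟨fun p e => a.fl p e + b.fl (p - a.pos) e, a.pos + b.pos⟩⟩
instance : One Fl := ⟨⟨fun _ _ => 0, 0⟩⟩
instance : Inv Fl := ⟨fun a => ⟨fun p e => - a.fl (p + a.pos) e, -a.pos⟩⟩

theorem mul_fl (a b : Fl) (p : ℤ × ℤ) (e : Bool) :
    (a * b).fl p e = a.fl p e + b.fl (p - a.pos) e := rfl
theorem mul_pos' (a b : Fl) : (a * b).pos = a.pos + b.pos := rfl
theorem one_fl (p : ℤ × ℤ) (e : Bool) : (1 : Fl).fl p e = 0 := rfl
theorem one_pos' : (1 : Fl).pos = 0 := rfl
theorem inv_fl (a : Fl) (p : ℤ × ℤ) (e : Bool) : (a⁻¹).fl p e = - a.fl (p + a.pos) e := rfl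
theorem inv_pos' (a : Fl) : (a⁻¹).pos = - a.pos := rfl

instance : Group Fl := Group.ofLeftAxioms
  (by
    intro a b c
    ext p e
    · simp only [mul_fl, mul_pos', sub_sub, add_assoc]
    all_goals simp only [mul_pos', add_assoc])
  (by
    intro a
    ext p e
    · simp only [mul_fl, one_fl, one_pos', zero_add, sub_zero]
    all_goals simp only [mul_pos', one_pos', zero_add])
  (by
    intro a
    ext p e
    · simp only [mul_fl, inv_fl, inv_pos', one_fl, sub_neg_eq_add, neg_add_cancel]
    all_goals simp only [mul_pos', inv_pos', one_pos', neg_add_cancel])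

/-- The endpoint homomorphism. -/
def posHom : Fl →* Multiplicative (ℤ × ℤ) where
  toFun a := Multiplicative.ofAdd a.pos
  map_one' := rfl
  map_mul' _ _ := rfl

theorem derived_one : derivedSeries Fl 1 ≤ posHom.ker := by
  rw [derivedSeries_succ, derivedSeries_zero, Subgroup.commutator_le]
  intro a _ b _
  rw [MonoidHom.mem_ker, map_commutatorElement, commutatorElement_eq_one_iff_mul_comm]
  exact mul_comm _ _

theorem derived_two : derivedSeries Fl 2 = ⊥ := by
  rw [derivedSeries_succ, eq_bot_iff, Subgroup.commutator_le]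
  intro a ha b hb
  rw [Subgroup.mem_bot, commutatorElement_eq_one_iff_mul_comm]
  have h1 : a.pos = 0 := derived_one ha
  have h2 : b.pos = 0 := derived_one hb
  ext p e
  · rw [mul_fl, mul_fl, h1, h2, sub_zero, add_comm]
  · rw [mul_pos', mul_pos', add_comm]
  · rw [mul_pos', mul_pos', add_comm]

/-- The flow of the first generator. -/
def fx : Fl := ⟨fun p e => if p = 0 ∧ e = false then 1 else 0, (1, 0)⟩
/-- The flow of the second generator. -/
def fy : Fl := ⟨fun p e => if p = 0 ∧ e = true then 1 else 0, (0, 1)⟩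

/-- The flow homomorphism: how often a word traverses each edge of the grid. -/
def Φ : F →* Fl := FreeGroup.lift ![fx, fy]

theorem Φ_x : Φ x = fx := by simp [Φ, x]
theorem Φ_y : Φ y = fy := by simp [Φ, y]

theorem Φ_derived (n : ℕ) (hn : 2 ≤ n) (g : F) (hg : g ∈ derivedSeries F n) : Φ g = 1 := by
  have h1 : g ∈ derivedSeries F 2 := derivedSeries_antitone F hn hg
  have h2 : Φ g ∈ derivedSeries Fl 2 :=
    (map_derivedSeries_le_derivedSeries Φ 2) (Subgroup.mem_map_of_mem Φ h1)
  rwa [derived_two, Subgroup.mem_bot] at h2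

/-- All edges carry flow at most `k`. -/
def Bd (k : ℤ) (a : Fl) : Prop := ∀ p e, |a.fl p e| ≤ k

theorem Bd.mul {k l : ℤ} {a b : Fl} (ha : Bd k a) (hb : Bd l b) : Bd (k + l) (a * b) := by
  intro p e
  rw [mul_fl]
  exact (abs_add_le _ _).trans (add_le_add (ha p e) (hb _ e))

theorem Bd.inv {k : ℤ} {a : Fl} (ha : Bd k a) : Bd k a⁻¹ := by
  intro p e
  rw [inv_fl, abs_neg]
  exact ha _ e

theorem Bd.one : Bd 0 1 := by
  intro p e
  rw [one_fl, abs_zero]

/-- The invariant of monotone paths: `s`, `t` are the signs of the two directions. -/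
structure Inv (s t : ℤ) (a : Fl) : Prop where
  nonneg : 0 ≤ s * a.pos.1 + t * a.pos.2
  bd : Bd 1 a
  supp_x : ∀ p, a.fl p false ≠ 0 → 0 ≤ 2 * (s * p.1 + t * p.2) + (s - 1) ∧
    2 * (s * p.1 + t * p.2) + (s - 1) < 2 * (s * a.pos.1 + t * a.pos.2)
  supp_y : ∀ p, a.fl p true ≠ 0 → 0 ≤ 2 * (s * p.1 + t * p.2) + (t - 1) ∧
    2 * (s * p.1 + t * p.2) + (t - 1) < 2 * (s * a.pos.1 + t * a.pos.2)

theorem Inv.mul {s t : ℤ} {a b : Fl} (ha : Inv s t a) (hb : Inv s t b) : Inv s t (a * b) := by
  have hpos : s * (a * b).pos.1 + t * (a * b).pos.2 =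
      (s * a.pos.1 + t * a.pos.2) + (s * b.pos.1 + t * b.pos.2) := by
    rw [mul_pos', Prod.fst_add, Prod.snd_add]; ring
  have hlev : ∀ p : ℤ × ℤ, s * (p - a.pos).1 + t * (p - a.pos).2 =
      (s * p.1 + t * p.2) - (s * a.pos.1 + t * a.pos.2) := by
    intro p
    rw [Prod.fst_sub, Prod.snd_sub]; ring
  have na := ha.nonneg
  have nb := hb.nonneg
  refine ⟨by rw [hpos]; omega, ?_, ?_, ?_⟩
  · intro p e
    rw [mul_fl]
    by_cases h1 : a.fl p e = 0
    · rw [h1, zero_add]; exact hb.bd _ e
    · by_cases h2 : b.fl (p - a.pos) e = 0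
      · rw [h2, add_zero]; exact ha.bd _ e
      · exfalso
        cases e
        · have h3 := (ha.supp_x p h1).2
          have h4 := (hb.supp_x _ h2).1
          rw [hlev] at h4
          omega
        · have h3 := (ha.supp_y p h1).2
          have h4 := (hb.supp_y _ h2).1
          rw [hlev] at h4
          omega
  · intro p hp
    rw [hpos]
    rw [mul_fl] at hp
    by_cases h1 : a.fl p false = 0
    · rw [h1, zero_add] at hp
      have h4 := hb.supp_x _ hp
      rw [hlev] at h4
      omega
    · have h3 := ha.supp_x p h1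
      omega
  · intro p hp
    rw [hpos]
    rw [mul_fl] at hp
    by_cases h1 : a.fl p true = 0
    · rw [h1, zero_add] at hp
      have h4 := hb.supp_y _ hp
      rw [hlev] at h4
      omega
    · have h3 := ha.supp_y p h1
      omega

theorem Inv.one (s t : ℤ) : Inv s t 1 := by
  refine ⟨by simp [one_pos'], fun p e => by simp [one_fl], ?_, ?_⟩ <;>
    · intro p hp
      exact absurd (one_fl _ _) hp

theorem sgn_x {X : F} (h : Sgn x X) : ∃ s : ℤ, ∀ t, Inv s t (Φ X) := by
  rcases h with rfl | rfl
  · refine ⟨1, fun t => ⟨?_, ?_, ?_, ?_⟩⟩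
    · simp [Φ_x, fx]
    · intro p e
      simp only [Φ_x, fx]
      split_ifs <;> simp
    · intro p hp
      simp only [Φ_x, fx] at hp ⊢
      have h1 : p = 0 := by
        by_contra h; exact hp (by simp [h])
      subst h1
      simp
    · intro p hp
      simp [Φ_x, fx] at hp
  · refine ⟨-1, fun t => ⟨?_, ?_, ?_, ?_⟩⟩
    · simp [Φ_x, inv_pos', fx]
    · intro p e
      simp only [_root_.map_inv, Φ_x, inv_fl, fx]
      split_ifs <;> simp
    · intro p hp
      simp only [_root_.map_inv, Φ_x, inv_fl, inv_pos', fx] at hp ⊢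
      have h1 : p + (1, 0) = 0 := by
        by_contra h; exact hp (by simp [h])
      have h2 : p = (-1, 0) := by
        rw [eq_neg_of_add_eq_zero_left h1]; rfl
      subst h2
      simp
    · intro p hp
      simp [_root_.map_inv, Φ_x, inv_fl, fx] at hp

theorem sgn_y {Y : F} (h : Sgn y Y) : ∃ t : ℤ, ∀ s, Inv s t (Φ Y) := by
  rcases h with rfl | rfl
  · refine ⟨1, fun t => ⟨?_, ?_, ?_, ?_⟩⟩
    · simp [Φ_y, fy]
    · intro p e
      simp only [Φ_y, fy]
      split_ifs <;> simp
    · intro p hp
      simp [Φ_y, fy] at hp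
    · intro p hp
      simp only [Φ_y, fy] at hp ⊢
      have h1 : p = 0 := by
        by_contra h; exact hp (by simp [h])
      subst h1
      simp
  · refine ⟨-1, fun t => ⟨?_, ?_, ?_, ?_⟩⟩
    · simp [Φ_y, inv_pos', fy]
    · intro p e
      simp only [_root_.map_inv, Φ_y, inv_fl, fy]
      split_ifs <;> simp
    · intro p hp
      simp [_root_.map_inv, Φ_y, inv_fl, fy] at hp
    · intro p hp
      simp only [_root_.map_inv, Φ_y, inv_fl, inv_pos', fy] at hp ⊢
      have h1 : p + (0, 1) = 0 := by
        by_contra h; exact hp (by simp [h])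
      have h2 : p = (0, -1) := by
        rw [eq_neg_of_add_eq_zero_left h1]; rfl
      subst h2
      simp

/-- A monotone word traverses every edge at most once. -/
theorem Mon.bd {w : F} (h : Mon w) : Bd 1 (Φ w) := by
  obtain ⟨X, Y, hX, hY, hw⟩ := h
  obtain ⟨s, hs⟩ := sgn_x hX
  obtain ⟨t, ht⟩ := sgn_y hY
  have key : Inv s t (Φ w) := by
    induction hw using Submonoid.closure_induction with
    | mem z hz =>
      rcases hz with rfl | rfl
      · exact hs t
      · exact ht s
    | one => rw [_root_.map_one]; exact Inv.one s t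
    | mul a b _ _ ha hb => rw [_root_.map_mul]; exact ha.mul hb
  exact key.bd

theorem list_bd (l : List F) (h : ∀ w ∈ l, Mon w ∨ Mon w⁻¹) : Bd l.length (Φ l.prod) := by
  induction l with
  | nil => simpa using Bd.one
  | cons a l ih =>
    rw [List.prod_cons, _root_.map_mul, List.length_cons, Nat.cast_add, Nat.cast_one, add_comm]
    refine Bd.mul ?_ (ih fun w hw => h w (List.mem_cons_of_mem _ hw))
    rcases h a List.mem_cons_self with h1 | h1
    · exact h1.bd
    · have := h1.bd.inv
      rwa [_root_.map_inv, inv_inv] at this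

/-- The commutator of the two generators. -/
def c : F := x * y * x⁻¹ * y⁻¹

theorem Φ_c : (Φ c).pos = 0 ∧ (Φ c).fl 0 false = 1 := by
  unfold c
  rw [_root_.map_mul, _root_.map_mul, _root_.map_mul, _root_.map_inv, _root_.map_inv, Φ_x, Φ_y]
  constructor
  · simp [mul_pos', inv_pos', fx, fy]
  · simp [mul_fl, mul_pos', inv_fl, inv_pos', fx, fy]

theorem Φ_c_pow (m : ℕ) : (Φ (c ^ m)).pos = 0 ∧ (Φ (c ^ m)).fl 0 false = m := by
  induction m with
  | zero => simp [one_fl, one_pos']
  | succ m ih =>
    rw [pow_succ', _root_.map_mul]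
    obtain ⟨h1, h2⟩ := Φ_c
    obtain ⟨h3, h4⟩ := ih
    constructor
    · rw [mul_pos', h1, h3, add_zero]
    · rw [mul_fl, h1, sub_zero, h2, h4]
      push_cast
      ring

/-- **Main theorem.**  Let `F` be the free group on `x = of 0`, `y = of 1`, the fundamental group
of the once-punctured torus, with `x` represented by a nonseparating simple closed curve.  There is
a generating set `S` of `F` which contains a conjugate of `φ x` for every automorphism `φ` of `F`,
and such that for every `n ≥ 2` the quotient `F / F^(n)` has infinite diameter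
with respect to the image of `S`: for every `k` there is an element of the quotient which is not a
product of at most `k` elements of the image of `S` and inverses of such elements. -/
theorem result : ∃ S : Set (FreeGroup (Fin 2)), Subgroup.closure S = ⊤ ∧
    (∀ φ : FreeGroup (Fin 2) ≃* FreeGroup (Fin 2), ∃ s ∈ S, IsConj s (φ (FreeGroup.of 0))) ∧
    ∀ n : ℕ, 2 ≤ n → ∀ k : ℕ,
      ∃ q : FreeGroup (Fin 2) ⧸ derivedSeries (FreeGroup (Fin 2)) n,
        ∀ l : List (FreeGroup (Fin 2) ⧸ derivedSeries (FreeGroup (Fin 2)) n), l.length ≤ k →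
          (∀ t ∈ l, ∃ s ∈ S, t = (s : FreeGroup (Fin 2) ⧸ derivedSeries (FreeGroup (Fin 2)) n) ∨
            t = (s : FreeGroup (Fin 2) ⧸ derivedSeries (FreeGroup (Fin 2)) n)⁻¹) →
          l.prod ≠ q := by
  refine ⟨{w | Mon w}, ?_, fun φ => ?_, ?_⟩
  · rw [eq_top_iff, ← FreeGroup.closure_range_of (Fin 2), Subgroup.closure_le]
    rintro _ ⟨i, rfl⟩
    apply Subgroup.subset_closure
    fin_cases i
    · exact ⟨x, y, Or.inl rfl, Or.inl rfl, Submonoid.subset_closure (Or.inl rfl)⟩
    · exact ⟨x, y, Or.inl rfl, Or.inl rfl, Submonoid.subset_closure (Or.inr rfl)⟩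
  · obtain ⟨s, h1, h2⟩ := primitive_conj_mon φ
    exact ⟨s, h1, h2⟩
  · intro n hn k
    refine ⟨((c ^ (k + 1) : F) : F ⧸ derivedSeries F n), ?_⟩
    intro l hl hS hprod
    -- lift the factors
    have hlift : ∃ l' : List F, l'.length = l.length ∧ (∀ w ∈ l', Mon w ∨ Mon w⁻¹) ∧
        ((l'.prod : F) : F ⧸ derivedSeries F n) = l.prod := by
      clear hprod hl
      induction l with
      | nil => exact ⟨[], rfl, by simp, by simp⟩
      | cons t l ih =>
        obtain ⟨l', h1, h2, h3⟩ := ih fun t ht => hS t (List.mem_cons_of_mem _ ht)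
        obtain ⟨s, hs, ht⟩ := hS t List.mem_cons_self
        rcases ht with rfl | rfl
        · refine ⟨s :: l', by simp [h1], ?_, ?_⟩
          · intro w hw
            rcases List.mem_cons.1 hw with rfl | hw
            · exact Or.inl hs
            · exact h2 w hw
          · rw [List.prod_cons, List.prod_cons, QuotientGroup.mk_mul, h3]
        · refine ⟨s⁻¹ :: l', by simp [h1], ?_, ?_⟩
          · intro w hw
            rcases List.mem_cons.1 hw with rfl | hw
            · right; rw [inv_inv]; exact hs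
            · exact h2 w hw
          · rw [List.prod_cons, List.prod_cons, QuotientGroup.mk_mul, h3, QuotientGroup.mk_inv]
    obtain ⟨l', h1, h2, h3⟩ := hlift
    rw [hprod] at h3
    have h4 := Φ_derived n hn _ (QuotientGroup.eq.1 h3)
    rw [_root_.map_mul, _root_.map_inv, inv_mul_eq_one] at h4
    have h5 := list_bd l' h2 0 false
    rw [h4, (Φ_c_pow (k + 1)).2] at h5
    rw [abs_of_nonneg (by positivity)] at h5
    have : k + 1 ≤ l'.length := by exact_mod_cast h5
    omega

end Pool.Agent.Results.MP_4b02fd_al.PuncturedTorus
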